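import Pool.Agent.U908.HS.Bnd

/-!
# Sectional and integral forms of the inequality
-/

set_option autoImplicit false

namespace Pool.Agent.U908.HS

open Finset Pool.Agent.W666.GB MeasureTheory

section pt

variable {V : Type*} [NormedAddCommGroup V] [InnerProductSpace ℝ V] {m : ℕ}

/-- The mean of the numbers `-K` over the planes of the tangent space, `K` being the sectional
curvature: `-scal / (n (n - 1))`, `n = 2 m`. -/
noncomputable def meanK (e : OrthonormalBasis (Fin m × Bool) ℝ V) (R : V → V → V → V → ℝ) : ℝ :=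
  -scal e R / (2 * m * (2 * m - 1))

/-- The deviation of `R` from constant curvature: the larger one of the Hilbert–Schmidt distances
of `R` and of its Ricci tensor to those of the tensor of constant curvature with the same scalar
curvature, divided by the dimension `n = 2 m`. -/
noncomputable def dev (e : OrthonormalBasis (Fin m × Bool) ℝ V) (R : V → V → V → V → ℝ) : ℝ :=
  Real.sqrt (max (devR e R (meanK e R)) (devRic e R (meanK e R))) / (2 * m)

theorem dev_nonneg (e : OrthonormalBasis (Fin m × Bool) ℝ V) (R : V → V → V → V → ℝ) :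
    0 ≤ dev e R := by unfold dev; positivity

theorem devR_nonneg (e : OrthonormalBasis (Fin m × Bool) ℝ V) (R : V → V → V → V → ℝ) (κ : ℝ) :
    0 ≤ devR e R κ := by unfold devR; positivity

theorem scal_eq (hm : 0 < m) (e : OrthonormalBasis (Fin m × Bool) ℝ V)
    (R : V → V → V → V → ℝ) : scal e R = -(meanK e R * (2 * m * (2 * m - 1))) := by
  have hm1 : (1 : ℝ) ≤ m := by exact_mod_cast hm
  have hpos : (0 : ℝ) < 2 * m * (2 * m - 1) := by nlinarith
  rw [meanK, div_mul_cancel₀ _ hpos.ne', neg_neg]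

theorem dev_sq (hm : 0 < m) (e : OrthonormalBasis (Fin m × Bool) ℝ V)
    (R : V → V → V → V → ℝ) :
    (dev e R * (2 * m)) ^ 2 = max (devR e R (meanK e R)) (devRic e R (meanK e R)) := by
  have hm1 : (0 : ℝ) < m := by exact_mod_cast hm
  rw [dev, div_mul_cancel₀ _ (by positivity),
    Real.sq_sqrt (le_max_of_le_left (devR_nonneg e R _))]

theorem dev_le (hm : 0 < m) (e : OrthonormalBasis (Fin m × Bool) ℝ V)
    (R : V → V → V → V → ℝ) {x : ℝ} (hx : 0 ≤ x)
    (h4 : devR e R (meanK e R) ≤ (x * (2 * m)) ^ 2)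
    (h2 : devRic e R (meanK e R) ≤ (x * (2 * m)) ^ 2) : dev e R ≤ x := by
  have hm1 : (0 : ℝ) < m := by exact_mod_cast hm
  have h1 : (dev e R * (2 * m)) ^ 2 ≤ (x * (2 * m)) ^ 2 := by
    rw [dev_sq hm]; exact max_le h4 h2
  have h3 := abs_le_of_sq_le_sq h1 (by positivity)
  have h5 := (abs_le.mp h3).2
  exact le_of_mul_le_mul_right h5 (by positivity)

/-- **The inequality for arbitrary curvature tensors.** -/
theorem gbc_dev (e : OrthonormalBasis (Fin m × Bool) ℝ V) {R : V → V → V → V → ℝ}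
    (hR : AlgCurv R) :
    |(-1) ^ m * gbc e R - roundGB m 1 * meanK e R ^ m| ≤
      3 / 10 * roundGB m 1 * (|meanK e R| ^ m + (10 ^ 6 * dev e R) ^ m) := by
  have hr : roundGB m 1 * meanK e R ^ m = roundGB m (meanK e R) := by
    simp [roundGB]
  rw [hr]
  rcases Nat.eq_zero_or_pos m with h0 | hm
  · subst h0
    refine gbc_any e hR (x := dev e R) (dev_nonneg e R) ?_ ?_ ?_
    · simp [scal]
    · simp [devR]
    · simp [devRic]
  · exact gbc_any e hR (dev_nonneg e R) (scal_eq hm e R)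
      (by rw [dev_sq hm]; exact le_max_left _ _) (by rw [dev_sq hm]; exact le_max_right _ _)

/-- The deviation is at most `(4 / 3) √n` times the oscillation of the sectional curvature. -/
theorem dev_sec (hm : 0 < m) (e : OrthonormalBasis (Fin m × Bool) ℝ V) {R : V → V → V → V → ℝ}
    (hR : AlgCurv R) {a b : ℝ} (hs : SecIn R (-b) (-a)) :
    a ≤ meanK e R ∧ dev e R ≤ 4 / 3 * Real.sqrt (2 * m) * (b - a) := by
  obtain ⟨h1, h2⟩ := sec_bounds e hm hR hs
  have hm1 : (0 : ℝ) < m := by exact_mod_cast hm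
  set κ : ℝ := meanK e R with hκ
  change a ≤ κ at h1
  change κ ≤ b at h2
  refine ⟨h1, ?_⟩
  set η : ℝ := b - a with hη
  have hη0 : 0 ≤ η := by rw [hη]; linarith
  have hE := ET_curv hR κ
  have hsE : SecIn (ET R κ) (-η) η := by
    intro x y hx hy hxy
    have h3 := hs x y hx hy hxy
    have h4 : ET R κ x y x y = -R x y x y - κ := by
      simp only [ET]
      rw [real_inner_self_eq_norm_sq, real_inner_self_eq_norm_sq, hxy, hx, hy]; ring
    rw [h4]
    constructor <;> linarith [h3.1, h3.2]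
  have hall := hE.sec_all hη0 hsE
  have hcard : (Fintype.card (Fin m × Bool) : ℝ) = 2 * m := by
    rw [Fintype.card_prod, Fintype.card_fin, Fintype.card_bool]; push_cast; ring
  have hq : Real.sqrt (2 * m) ^ 2 = 2 * m := Real.sq_sqrt (by positivity)
  have hx2 : (4 / 3 * Real.sqrt (2 * m) * η * (2 * m)) ^ 2 = (2 * m : ℝ) ^ 3 * (4 / 3 * η) ^ 2 := by
    rw [mul_pow, mul_pow, mul_pow, hq]; ring
  refine dev_le hm e R (by positivity) ?_ ?_
  · have h5 := hE.hs_bound hη0 hall e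
    rw [hcard] at h5
    have h6 : devR e R κ = ∑ i, ∑ j, ∑ k, ∑ l, ET R κ (e i) (e j) (e k) (e l) ^ 2 := by
      simp only [← EE_eq, EE, neg_sq, devR]
    rw [h6, hx2]
    exact h5
  · have h5 := hE.ric_bound hη0 hall e
    rw [hcard] at h5
    have h6 : devRic e R κ = ∑ j, ∑ l, (∑ i, ET R κ (e i) (e j) (e i) (e l)) ^ 2 := by
      have h7 : ∀ j l, ∑ i, ET R κ (e i) (e j) (e i) (e l) = ricc (EE e R κ) j l := by
        intro j l
        simp only [← EE_eq, ricc]
      simp only [h7, ricc_EE, neg_sq, devRic]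
    rw [h6, hx2]
    refine h5.trans ?_
    have : 0 ≤ (2 * m : ℝ) ^ 3 * η ^ 2 := by positivity
    nlinarith

theorem round_nonneg (m : ℕ) : 0 ≤ roundGB m 1 := by
  have hπ := Real.pi_pos
  unfold roundGB
  positivity

/-- **Nonpositive sectional curvature in `[-b, -a]`.** -/
theorem gbc_sec (hm : 0 < m) (e : OrthonormalBasis (Fin m × Bool) ℝ V) {R : V → V → V → V → ℝ}
    (hR : AlgCurv R) {a b : ℝ} (ha : 0 ≤ a) (hs : SecIn R (-b) (-a)) :
    roundGB m 1 * (7 / 10 * a ^ m - 3 / 10 * (4 / 3 * 10 ^ 6 * Real.sqrt (2 * m) * (b - a)) ^ m) ≤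
      (-1) ^ m * gbc e R := by
  obtain ⟨h1, h2⟩ := dev_sec hm e hR hs
  have h3 := (abs_le.mp (gbc_dev e hR)).1
  have hr := round_nonneg m
  have hκ : 0 ≤ meanK e R := ha.trans h1
  rw [abs_of_nonneg hκ] at h3
  have h4 : a ^ m ≤ meanK e R ^ m := pow_le_pow_left₀ ha h1 m
  have h5 : (10 ^ 6 * dev e R) ^ m ≤ (4 / 3 * 10 ^ 6 * Real.sqrt (2 * m) * (b - a)) ^ m := by
    refine pow_le_pow_left₀ (mul_nonneg (by positivity) (dev_nonneg e R)) ?_ m
    nlinarith
  have h6 : roundGB m 1 * (7 / 10 * a ^ m -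
      3 / 10 * (4 / 3 * 10 ^ 6 * Real.sqrt (2 * m) * (b - a)) ^ m) ≤
      roundGB m 1 * (7 / 10 * meanK e R ^ m - 3 / 10 * (10 ^ 6 * dev e R) ^ m) := by
    refine mul_le_mul_of_nonneg_left ?_ hr
    linarith
  have h7 : roundGB m 1 * (7 / 10 * meanK e R ^ m - 3 / 10 * (10 ^ 6 * dev e R) ^ m) =
    -(3 / 10 * roundGB m 1 * (meanK e R ^ m + (10 ^ 6 * dev e R) ^ m)) +
      roundGB m 1 * meanK e R ^ m := by ring
  linarith

end pt

section field

variable {m : ℕ} {M : Type} [MeasurableSpace M] (μ : Measure M) (K : CurvField m M)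

/-- **Integrated inequality.** -/
theorem field_dev (hg : Integrable K.gb μ)
    (h1 : Integrable (fun p => meanK (K.e p) (K.R p) ^ m) μ)
    (h2 : Integrable (fun p => dev (K.e p) (K.R p) ^ m) μ) :
    |(-1) ^ m * ∫ p, K.gb p ∂μ - roundGB m 1 * ∫ p, meanK (K.e p) (K.R p) ^ m ∂μ| ≤
      3 / 10 * roundGB m 1 * (∫ p, |meanK (K.e p) (K.R p)| ^ m ∂μ +
        ∫ p, (10 ^ 6 * dev (K.e p) (K.R p)) ^ m ∂μ) := by
  have h1' : Integrable (fun p => |meanK (K.e p) (K.R p)| ^ m) μ := by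
    simpa only [abs_pow] using h1.abs
  have h2' : Integrable (fun p => (10 ^ 6 * dev (K.e p) (K.R p)) ^ m) μ := by
    simp only [mul_pow]
    exact h2.const_mul _
  rw [← integral_const_mul, ← integral_const_mul, ← integral_sub (hg.const_mul _) (h1.const_mul _),
    ← integral_add h1' h2', ← integral_const_mul]
  refine (abs_integral_le_integral_abs).trans ?_
  refine integral_mono ((hg.const_mul _).sub (h1.const_mul _)).abs ((h1'.add h2').const_mul _) ?_
  intro p
  exact gbc_dev (K.e p) (K.curv p)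

/-- **`L^m` pinching.** -/
theorem field_sign (hg : Integrable K.gb μ)
    (h1 : Integrable (fun p => meanK (K.e p) (K.R p) ^ m) μ)
    (h2 : Integrable (fun p => dev (K.e p) (K.R p) ^ m) μ)
    (h0 : ∀ p, 0 ≤ meanK (K.e p) (K.R p))
    (h : ∫ p, (10 ^ 6 * dev (K.e p) (K.R p)) ^ m ∂μ ≤ ∫ p, meanK (K.e p) (K.R p) ^ m ∂μ) :
    2 / 5 * roundGB m 1 * ∫ p, meanK (K.e p) (K.R p) ^ m ∂μ ≤ (-1) ^ m * ∫ p, K.gb p ∂μ := by
  have h3 := (abs_le.mp (field_dev μ K hg h1 h2)).1
  have h4 : ∫ p, |meanK (K.e p) (K.R p)| ^ m ∂μ = ∫ p, meanK (K.e p) (K.R p) ^ m ∂μ := by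
    refine integral_congr_ae (Filter.Eventually.of_forall fun p => ?_)
    simp only [abs_of_nonneg (h0 p)]
  rw [h4] at h3
  have hr := round_nonneg m
  have h5 := mul_le_mul_of_nonneg_left h hr
  have h6 : ∀ r A B S : ℝ, r * B ≤ r * A → -(3 / 10 * r * (A + B)) ≤ S - r * A →
      2 / 5 * r * A ≤ S := by
    intro r A B S hB hS
    have h7 : -(3 / 10 * r * (A + B)) = -(3 / 10) * (r * A) - 3 / 10 * (r * B) := by ring
    have h8 : 2 / 5 * r * A = 2 / 5 * (r * A) := by ring
    rw [h8]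
    linarith
  exact h6 _ _ _ _ h5 h3

/-- **`L^m` pinching of the sectional curvature.** -/
theorem field_sec (hm : 0 < m) (hg : Integrable K.gb μ) {a b : M → ℝ} (ha : ∀ p, 0 ≤ a p)
    (hs : ∀ p, SecIn (K.R p) (-b p) (-a p)) (h1 : Integrable (fun p => a p ^ m) μ)
    (h2 : Integrable (fun p => (b p - a p) ^ m) μ) :
    roundGB m 1 * (7 / 10 * ∫ p, a p ^ m ∂μ -
      3 / 10 * ∫ p, (4 / 3 * 10 ^ 6 * Real.sqrt (2 * m) * (b p - a p)) ^ m ∂μ) ≤
      (-1) ^ m * ∫ p, K.gb p ∂μ := by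
  have h2' : Integrable (fun p => (4 / 3 * 10 ^ 6 * Real.sqrt (2 * m) * (b p - a p)) ^ m) μ := by
    simp only [mul_pow _ (b _ - a _)]
    exact h2.const_mul _
  rw [← integral_const_mul, ← integral_const_mul, ← integral_sub (h1.const_mul _)
    (h2'.const_mul _), ← integral_const_mul, ← integral_const_mul]
  refine integral_mono (((h1.const_mul _).sub (h2'.const_mul _)).const_mul _) (hg.const_mul _) ?_
  intro p
  exact gbc_sec hm (K.e p) (K.curv p) (ha p) (hs p)

end field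

end Pool.Agent.U908.HS
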