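import Pool.Agent.W666.GB.Main

/-!
# An inequality for the Gauss–Bonnet–Chern integrand of an arbitrary curvature tensor

The moment estimates of `Pool/Agent/W666/GB` for the terms of the expansion of the integrand at a
multiple of the unit tensor, without any smallness assumption.
-/

set_option autoImplicit false

namespace Pool.Agent.U908.HS

open Finset Pool.Agent.W666.GB

/-- the arithmetic estimate for one term -/
theorem term_le2 (m k : ℕ) (hk : 0 < k) (hkm : k ≤ m) (κ x : ℝ) (hκ : 0 ≤ κ) (hx : 0 ≤ x) :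
    (m.choose k : ℝ) * (κ ^ (m - k) * ((2 * m).factorial / ((2 * m).descFactorial (2 * k) *
      (2 * k).factorial) * (k.factorial * (21600 * Real.exp 1 * (k : ℝ) ^ 2 *
        (x * (2 * m))) ^ k))) ≤
    ((2 * m).factorial : ℝ) * (2 / Real.exp 1 ^ 2 *
      (κ ^ (m - k) * (2700 * Real.exp 1 ^ 5 * x) ^ k)) := by
  have h1 := term_le m k hk hkm 1 one_pos
  rw [one_pow, one_pow, one_mul, one_mul] at h1
  have h2 := mul_le_mul_of_nonneg_left h1
    (mul_nonneg (pow_nonneg hκ (m - k)) (pow_nonneg (by positivity : 0 ≤ 10 ^ 6 * x) k))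
  have e1 : (21600 * Real.exp 1 * (k : ℝ) ^ 2 * (x * (2 * m))) ^ k =
      (10 ^ 6 * x) ^ k * (21600 * Real.exp 1 * (k : ℝ) ^ 2 * (1 / 10 ^ 6 * 1 * (2 * m))) ^ k := by
    rw [← mul_pow]; congr 1; ring
  have e2 : (2700 * Real.exp 1 ^ 5 * x) ^ k =
      (10 ^ 6 * x) ^ k * (2700 * Real.exp 1 ^ 5 * (1 / 10 ^ 6)) ^ k := by
    rw [← mul_pow]; congr 1; ring
  rw [e1, e2]
  calc _ = κ ^ (m - k) * (10 ^ 6 * x) ^ k * ((m.choose k : ℝ) * ((2 * m).factorial /
        ((2 * m).descFactorial (2 * k) * (2 * k).factorial) * (k.factorial *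
        (21600 * Real.exp 1 * (k : ℝ) ^ 2 * (1 / 10 ^ 6 * 1 * (2 * m))) ^ k))) := by ring
    _ ≤ _ := h2
    _ = _ := by ring

theorem mix_le (m k : ℕ) (hkm : k ≤ m) {κ y : ℝ} (hκ : 0 ≤ κ) (hy : 0 ≤ y) :
    κ ^ (m - k) * y ^ k ≤ (1 / 2) ^ k * (κ ^ m + (2 * y) ^ m) := by
  rcases le_total y (κ / 2) with h | h
  · have h1 : y ^ k ≤ (κ / 2) ^ k := pow_le_pow_left₀ hy h k
    calc κ ^ (m - k) * y ^ k ≤ κ ^ (m - k) * (κ / 2) ^ k :=
          mul_le_mul_of_nonneg_left h1 (pow_nonneg hκ _)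
      _ = (1 / 2) ^ k * (κ ^ (m - k) * κ ^ k) := by
          rw [show κ / 2 = 1 / 2 * κ by ring, mul_pow]; ring
      _ = (1 / 2) ^ k * κ ^ m := by rw [← pow_add, Nat.sub_add_cancel hkm]
      _ ≤ _ := by
          refine mul_le_mul_of_nonneg_left ?_ (by positivity)
          linarith [pow_nonneg (by positivity : 0 ≤ 2 * y) m]
  · have h1 : κ ^ (m - k) ≤ (2 * y) ^ (m - k) := pow_le_pow_left₀ hκ (by linarith) _
    calc κ ^ (m - k) * y ^ k ≤ (2 * y) ^ (m - k) * y ^ k :=
          mul_le_mul_of_nonneg_right h1 (pow_nonneg hy _)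
      _ = (1 / 2) ^ k * ((2 * y) ^ (m - k) * (2 * y) ^ k) := by
          rw [mul_pow 2 y k, ← mul_assoc, ← mul_assoc, mul_comm ((1 / 2 : ℝ) ^ k),
            mul_assoc ((2 * y) ^ (m - k)), ← mul_pow]
          norm_num
      _ = (1 / 2) ^ k * (2 * y) ^ m := by rw [← pow_add, Nat.sub_add_cancel hkm]
      _ ≤ _ := by
          refine mul_le_mul_of_nonneg_left ?_ (by positivity)
          linarith [pow_nonneg hκ m]

theorem half_sum (m : ℕ) : ∑ k ∈ range m, (1 / 2 : ℝ) ^ (k + 1) ≤ 1 := by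
  have : ∑ k ∈ range m, (1 / 2 : ℝ) ^ (k + 1) = 1 - (1 / 2) ^ m := by
    induction m with
    | zero => simp
    | succ m ih => rw [Finset.sum_range_succ, ih, pow_succ]; ring
  rw [this]
  linarith [pow_nonneg (by norm_num : (0 : ℝ) ≤ 1 / 2) m]

theorem consts : 2 / Real.exp 1 ^ 2 ≤ (3 / 10 : ℝ) ∧ 2 * (2700 * Real.exp 1 ^ 5) ≤ (10 : ℝ) ^ 6 := by
  have he1 := Real.exp_one_gt_d9
  have he2 := Real.exp_one_lt_d9
  set e := Real.exp 1
  constructor
  · rw [div_le_iff₀ (by positivity)]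
    have : 2.7182818283 ^ 2 ≤ e ^ 2 := pow_le_pow_left₀ (by norm_num) he1.le 2
    norm_num at this ⊢
    linarith
  · have : e ^ 5 ≤ 2.7182818286 ^ 5 := pow_le_pow_left₀ (by positivity) he2.le 5
    norm_num at this ⊢
    linarith

section assembly

variable {B : Type*} [Fintype B] [DecidableEq B]
  {E : B × Bool → B × Bool → B × Bool → B × Bool → ℝ}

/-- **Main estimate**, for arbitrary tensors. -/
theorem main_bound2 (hE : Sym4 E) (hscal : ∑ i, ricc E i i = 0) (κ : ℝ) {x : ℝ} (hx : 0 ≤ x)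
    (h4 : ∑ i, ∑ j, ∑ p, ∑ l, E i j p l ^ 2 ≤ (x * (2 * Fintype.card B)) ^ 2)
    (h2 : ∑ i, ∑ j, ricc E i j ^ 2 ≤ (x * (2 * Fintype.card B)) ^ 2) :
    |Yf (fun a b c d => κ * (if a = b then 1 else 0) * (if c = d then 1 else 0) + Cl E a b c d) -
      κ ^ Fintype.card B * (2 * Fintype.card B).factorial| ≤
      3 / 10 * ((|κ| ^ Fintype.card B + (10 ^ 6 * x) ^ Fintype.card B) *
        (2 * Fintype.card B).factorial) := by
  set m := Fintype.card B with hm
  set a : ℝ := x * (2 * m) with ha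
  have ha0 : 0 ≤ a := by positivity
  rw [Yf_expand]
  have hsplit := Finset.sum_erase_add (Finset.univ : Finset (Finset B))
    (fun T => κ ^ (m - T.card) * ∑ σ : Equiv.Perm (B × Bool), yf (pb (Cl E) (σ ∘ iT T)))
    (Finset.mem_univ ∅)
  rw [← hsplit]
  have hempty : κ ^ (m - (∅ : Finset B).card) *
      ∑ σ : Equiv.Perm (B × Bool), yf (pb (Cl E) (σ ∘ iT (∅ : Finset B))) =
      κ ^ m * (2 * m).factorial := by
    have : ∀ σ : Equiv.Perm (B × Bool), yf (pb (Cl E) (σ ∘ iT (∅ : Finset B))) = 1 := by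
      intro σ
      simp [yf, sn]
    simp only [this]
    rw [Finset.sum_const, Finset.card_univ, Fintype.card_perm, Fintype.card_prod,
      Fintype.card_bool, Finset.card_empty, Nat.sub_zero, nsmul_eq_mul, mul_one, mul_comm 2 m, hm]
  rw [hempty, add_sub_cancel_right]
  refine (Finset.abs_sum_le_sum_abs _ _).trans ?_
  have h5 : ∀ T ∈ (Finset.univ : Finset (Finset B)).erase ∅,
      |κ ^ (m - T.card) * ∑ σ : Equiv.Perm (B × Bool), yf (pb (Cl E) (σ ∘ iT T))| ≤
      |κ| ^ (m - T.card) * ((2 * m).factorial / ((2 * m).descFactorial (2 * T.card) *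
        (2 * T.card).factorial) * (T.card.factorial *
          (21600 * Real.exp 1 * (T.card : ℝ) ^ 2 * a) ^ T.card)) := by
    intro T hT
    rw [abs_mul, abs_pow]
    refine mul_le_mul_of_nonneg_left ?_ (by positivity)
    exact term_bound hE hscal ha0 h4 h2 T
      (Finset.card_pos.mpr (Finset.nonempty_iff_ne_empty.mpr (Finset.ne_of_mem_erase hT)))
  refine (Finset.sum_le_sum h5).trans ?_
  -- group by cardinality
  set g : ℕ → ℝ := fun k => if k = 0 then 0 else |κ| ^ (m - k) * ((2 * m).factorial /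
    ((2 * m).descFactorial (2 * k) * (2 * k).factorial) * (k.factorial *
          (21600 * Real.exp 1 * (k : ℝ) ^ 2 * a) ^ k)) with hg
  have h6 : ∑ T ∈ (Finset.univ : Finset (Finset B)).erase ∅,
      |κ| ^ (m - T.card) * ((2 * m).factorial / ((2 * m).descFactorial (2 * T.card) *
        (2 * T.card).factorial) * (T.card.factorial *
          (21600 * Real.exp 1 * (T.card : ℝ) ^ 2 * a) ^ T.card)) =
      ∑ T ∈ (Finset.univ : Finset B).powerset, g T.card := by
    rw [Finset.powerset_univ, ← Finset.sum_erase_add _ _ (Finset.mem_univ (∅ : Finset B))]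
    have h7 : g (∅ : Finset B).card = 0 := by simp [hg]
    rw [h7, add_zero]
    refine Finset.sum_congr rfl fun T hT => ?_
    have : T.card ≠ 0 := by
      rw [Ne, Finset.card_eq_zero]; exact Finset.ne_of_mem_erase hT
    simp only [hg, if_neg this]
  rw [h6, Finset.sum_powerset_apply_card, Finset.card_univ, ← hm, Finset.sum_range_succ']
  have h8 : (m.choose 0) • g 0 = 0 := by simp [hg]
  rw [h8, add_zero]
  obtain ⟨c1, c2⟩ := consts
  set y : ℝ := 2700 * Real.exp 1 ^ 5 * x with hy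
  have hy0 : 0 ≤ y := by positivity
  have h9 : ∀ k ∈ Finset.range m, (m.choose (k + 1)) • g (k + 1) ≤
      ((2 * m).factorial : ℝ) * (3 / 10 * ((1 / 2) ^ (k + 1) *
        (|κ| ^ m + (10 ^ 6 * x) ^ m))) := by
    intro k hk
    have hkm : k + 1 ≤ m := Finset.mem_range.mp hk
    have := term_le2 m (k + 1) (Nat.succ_pos k) hkm |κ| x (abs_nonneg _) hx
    rw [nsmul_eq_mul]
    simp only [hg, if_neg (Nat.succ_ne_zero k), ha]
    refine this.trans (mul_le_mul_of_nonneg_left ?_ (by positivity))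
    refine mul_le_mul c1 ?_ (by positivity) (by norm_num)
    refine (mix_le m (k + 1) hkm (abs_nonneg κ) hy0).trans ?_
    refine mul_le_mul_of_nonneg_left ?_ (by positivity)
    have : (2 * y) ^ m ≤ (10 ^ 6 * x) ^ m := by
      refine pow_le_pow_left₀ (by positivity) ?_ m
      calc 2 * y = 2 * (2700 * Real.exp 1 ^ 5) * x := by rw [hy]; ring
        _ ≤ 10 ^ 6 * x := mul_le_mul_of_nonneg_right c2 hx
    linarith
  refine (Finset.sum_le_sum h9).trans ?_
  rw [← Finset.mul_sum, ← Finset.mul_sum, ← Finset.sum_mul]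
  have h10 := half_sum m
  have h11 : 0 ≤ |κ| ^ m + (10 ^ 6 * x) ^ m := by positivity
  calc ((2 * m).factorial : ℝ) * (3 / 10 * ((∑ k ∈ range m, (1 / 2 : ℝ) ^ (k + 1)) *
        (|κ| ^ m + (10 ^ 6 * x) ^ m)))
      ≤ ((2 * m).factorial : ℝ) * (3 / 10 * (1 * (|κ| ^ m + (10 ^ 6 * x) ^ m))) := by
        gcongr
    _ = _ := by ring

end assembly

section curv

variable {V : Type*} [NormedAddCommGroup V] [InnerProductSpace ℝ V] {m : ℕ}
  (e : OrthonormalBasis (Fin m × Bool) ℝ V) {R : V → V → V → V → ℝ}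

/-- **The inequality for arbitrary curvature tensors.** -/
theorem gbc_any (hR : AlgCurv R) {κ x : ℝ} (hx : 0 ≤ x)
    (hs : scal e R = -(κ * (2 * m * (2 * m - 1))))
    (h4 : devR e R κ ≤ (x * (2 * m)) ^ 2) (h2 : devRic e R κ ≤ (x * (2 * m)) ^ 2) :
    |(-1) ^ m * gbc e R - roundGB m κ| ≤
      3 / 10 * roundGB m 1 * (|κ| ^ m + (10 ^ 6 * x) ^ m) := by
  have hE := EE_sym e hR κ
  have hsc : ∑ i, ricc (EE e R κ) i i = 0 := by
    simp only [ricc_EE, if_true, Finset.sum_neg_distrib, Finset.sum_add_distrib,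
      Finset.sum_const, Finset.card_univ, Fintype.card_prod, Fintype.card_fin, Fintype.card_bool,
      nsmul_eq_mul]
    have : ∑ i, ∑ j, R (e j) (e i) (e j) (e i) = scal e R := by
      rw [scal, Finset.sum_comm]
    rw [this, hs]
    push_cast; ring
  have hb := main_bound2 hE hsc κ hx (by
      rw [Fintype.card_fin]
      refine le_trans (le_of_eq ?_) h4
      simp only [EE, neg_sq, devR]) (by
      rw [Fintype.card_fin]
      refine le_trans (le_of_eq ?_) h2
      simp only [ricc_EE, neg_sq, devRic])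
  rw [Fintype.card_fin] at hb
  have hπ := Real.pi_pos
  have h8 : (8 * Real.pi) ^ m = 2 ^ m * (4 * Real.pi) ^ m := by
    rw [← mul_pow]; congr 1; ring
  have hr : roundGB m κ = 2 ^ m / ((8 * Real.pi) ^ m * m.factorial) *
      (κ ^ m * (2 * m).factorial) := by
    unfold roundGB
    rw [h8]
    field_simp
  have hr1 : roundGB m 1 = 2 ^ m / ((8 * Real.pi) ^ m * m.factorial) * (2 * m).factorial := by
    unfold roundGB
    rw [h8]
    field_simp
    simp
  have hc : 0 < 2 ^ m / ((8 * Real.pi) ^ m * (m.factorial : ℝ)) := by positivity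
  rw [neg_gbc_eq e hR κ, hr, hr1, ← mul_sub, abs_mul, abs_of_pos hc]
  calc _ ≤ 2 ^ m / ((8 * Real.pi) ^ m * (m.factorial : ℝ)) *
        (3 / 10 * ((|κ| ^ m + (10 ^ 6 * x) ^ m) * (2 * m).factorial)) :=
        mul_le_mul_of_nonneg_left hb hc.le
    _ = _ := by ring

end curv

end Pool.Agent.U908.HS
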