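import Pool.Agent.U908.HS.Fin

/-!
# Sharpness: the product of a hyperbolic space of dimension `2 m - 1` and a line
-/

set_option autoImplicit false

namespace Pool.Agent.U908.HS

open Finset Pool.Agent.W666.GB

section ex

variable {V : Type*} [NormedAddCommGroup V] [InnerProductSpace ℝ V] {m : ℕ}

/-- The inner product of the components orthogonal to `u`. -/
noncomputable def horF (u x y : V) : ℝ := inner ℝ x y - inner ℝ u x * inner ℝ u y

/-- The curvature tensor of the product of the hyperbolic space and the line spanned by `u`. -/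
noncomputable def prodT (u x y z w : V) : ℝ := -(horF u x z * horF u y w - horF u x w * horF u y z)

theorem horF_comm (u x y : V) : horF u x y = horF u y x := by
  simp only [horF, real_inner_comm x y]; ring

theorem prodT_curv (u : V) : AlgCurv (prodT u) where
  add x x' y z w := by
    simp only [prodT, horF, inner_add_left, inner_add_right]; ring
  smul t x y z w := by
    simp only [prodT, horF, real_inner_smul_left, real_inner_smul_right]; ring
  anti x y z w := by simp only [prodT]; ring
  pair x y z w := by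
    simp only [prodT]
    rw [horF_comm u z x, horF_comm u w y, horF_comm u z y, horF_comm u w x]; ring
  bianchi x y z w := by
    simp only [prodT]
    rw [horF_comm u y x, horF_comm u z x, horF_comm u z y]; ring

/-- All sectional curvatures are in `[-1, 0]`. -/
theorem prodT_sec {u : V} (hu : ‖u‖ = 1) : SecIn (prodT u) (-1) 0 := by
  intro x y hx hy hxy
  have h1 : prodT u x y x y = -(1 - inner ℝ u x ^ 2 - inner ℝ u y ^ 2) := by
    simp only [prodT, horF, real_inner_self_eq_norm_sq, hx, hy, hxy, real_inner_comm x y]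
    ring
  have h2 : inner ℝ u x ^ 2 + inner ℝ u y ^ 2 ≤ 1 := by
    have h3 : 0 ≤ ‖u - (inner ℝ u x) • x - (inner ℝ u y) • y‖ ^ 2 := by positivity
    have h4 : ‖u - (inner ℝ u x) • x - (inner ℝ u y) • y‖ ^ 2 =
        1 - inner ℝ u x ^ 2 - inner ℝ u y ^ 2 := by
      have hxx : inner ℝ x x = 1 := by rw [real_inner_self_eq_norm_sq, hx]; norm_num
      have hyy : inner ℝ y y = 1 := by rw [real_inner_self_eq_norm_sq, hy]; norm_num
      have huu : inner ℝ u u = 1 := by rw [real_inner_self_eq_norm_sq, hu]; norm_num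
      have hyx : inner ℝ y x = 0 := by rw [real_inner_comm]; exact hxy
      have hxu : inner ℝ x u = inner ℝ u x := real_inner_comm _ _
      have hyu : inner ℝ y u = inner ℝ u y := real_inner_comm _ _
      rw [← real_inner_self_eq_norm_sq]
      simp only [inner_sub_left, inner_sub_right, real_inner_smul_left, real_inner_smul_right,
        hxx, hyy, huu, hxy, hyx, hxu, hyu]
      ring
    linarith
  rw [h1]
  constructor
  · nlinarith [sq_nonneg (inner ℝ u x), sq_nonneg (inner ℝ u y)]
  · linarith

variable (e : OrthonormalBasis (Fin m × Bool) ℝ V) (o : Fin m × Bool)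

/-- `0` at the index of the line, `1` elsewhere -/
def dd (o i : Fin m × Bool) : ℝ := if i = o then 0 else 1

theorem prodT_comp (i j k l : Fin m × Bool) :
    prodT (e o) (e i) (e j) (e k) (e l) = -(dd o i * dd o j * unitCurv i j k l) := by
  have h : ∀ i k, horF (e o) (e i) (e k) = dd o i * (if i = k then 1 else 0) := by
    intro i k
    simp only [horF, OrthonormalBasis.inner_eq_ite, dd]
    by_cases h1 : i = o
    · by_cases h2 : i = k
      · subst h1; subst h2; simp
      · subst h1; simp [h2]
    · simp [h1, Ne.symm h1, eq_comm (a := o) (b := i)]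
  simp only [prodT, h, unitCurv]
  ring

theorem prodT_gbc : gbc e (prodT (e o)) = 0 := by
  unfold gbc
  rw [Finset.sum_eq_zero, mul_zero]
  intro σ _
  refine Finset.sum_eq_zero fun τ _ => ?_
  refine mul_eq_zero_of_right _ ?_
  obtain ⟨⟨b, c⟩, hb⟩ := σ.surjective o
  refine Finset.prod_eq_zero (Finset.mem_univ b) ?_
  rw [prodT_comp]
  cases c
  · simp [dd, hb]
  · simp [dd, hb]

theorem card_ix : (Fintype.card (Fin m × Bool) : ℝ) = 2 * m := by
  rw [Fintype.card_prod, Fintype.card_fin, Fintype.card_bool]; push_cast; ring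

theorem sum_dd : ∑ i, dd o i = 2 * m - 1 := by
  have h : ∀ i, dd o i = 1 - (if i = o then 1 else 0) := by
    intro i; unfold dd; split_ifs <;> norm_num
  simp only [h, Finset.sum_sub_distrib, Finset.sum_ite_eq', Finset.mem_univ, if_true,
    Finset.sum_const, Finset.card_univ, nsmul_eq_mul, card_ix]
  ring

theorem dd_sq (i : Fin m × Bool) : dd o i ^ 2 = dd o i := by
  unfold dd; split_ifs <;> norm_num

theorem sum_unit (i j : Fin m × Bool) : ∑ k, ∑ l, unitCurv i j k l ^ 2 =
    2 * (1 - (if i = j then 1 else 0)) := by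
  have h : ∀ k l, unitCurv i j k l ^ 2 =
      (if i = k then 1 else 0) * (if j = l then 1 else 0) +
      (if i = l then 1 else 0) * (if j = k then 1 else 0) -
      2 * ((if i = k then 1 else 0) * ((if j = k then 1 else 0) *
        ((if i = l then 1 else 0) * (if j = l then 1 else 0)))) := by
    intro k l
    unfold unitCurv
    split_ifs <;> norm_num
  simp only [h, Finset.sum_sub_distrib, Finset.sum_add_distrib, ← Finset.mul_sum,
    ← Finset.sum_mul, Finset.sum_ite_eq, Finset.mem_univ, if_true, mul_one, ite_mul, one_mul,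
    zero_mul, mul_ite, mul_zero]
  by_cases hij : i = j
  · subst hij; norm_num
  · simp [hij, Ne.symm hij, eq_comm (a := j) (b := i)]; norm_num

theorem prodT_scal : scal e (prodT (e o)) = -((2 * m - 1) * (2 * m - 2)) := by
  unfold scal
  have h : ∀ i j, prodT (e o) (e i) (e j) (e i) (e j) =
      -(dd o i * dd o j) + (if i = j then dd o i else 0) := by
    intro i j
    rw [prodT_comp]
    unfold unitCurv
    by_cases hij : i = j
    · subst hij
      simp only [if_true]
      have := dd_sq o i
      nlinarith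
    · simp [hij]
  simp only [h, Finset.sum_add_distrib, Finset.sum_neg_distrib, ← Finset.mul_sum,
    ← Finset.sum_mul, Finset.sum_ite_eq, Finset.mem_univ, if_true, sum_dd]
  ring

theorem prodT_mean (hm : 0 < m) : meanK e (prodT (e o)) = (2 * m - 2) / (2 * m) := by
  have hm1 : (1 : ℝ) ≤ m := by exact_mod_cast hm
  have h1 : (2 * m - 1 : ℝ) ≠ 0 := by intro h; linarith
  have h2 : (m : ℝ) ≠ 0 := by intro h; linarith
  rw [meanK, prodT_scal]
  field_simp

theorem prodT_devR (κ : ℝ) : devR e (prodT (e o)) κ =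
    2 * ((2 * m - 1) * (2 * m - 2) * (κ - 1) ^ 2 + 2 * (2 * m - 1) * κ ^ 2) := by
  unfold devR
  have h : ∀ i j k l, (prodT (e o) (e i) (e j) (e k) (e l) + κ * unitCurv i j k l) ^ 2 =
      (κ ^ 2 + (1 - 2 * κ) * (dd o i * dd o j)) * unitCurv i j k l ^ 2 := by
    intro i j k l
    rw [prodT_comp]
    have h1 := dd_sq o i
    have h2 := dd_sq o j
    have h3 : (dd o i * dd o j) ^ 2 = dd o i * dd o j := by rw [mul_pow, h1, h2]
    calc (-(dd o i * dd o j * unitCurv i j k l) + κ * unitCurv i j k l) ^ 2 =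
        (κ ^ 2 - 2 * κ * (dd o i * dd o j) + (dd o i * dd o j) ^ 2) * unitCurv i j k l ^ 2 := by
          ring
      _ = _ := by rw [h3]; ring
  simp only [h, ← Finset.mul_sum, sum_unit]
  have h4 : ∀ i j, (κ ^ 2 + (1 - 2 * κ) * (dd o i * dd o j)) *
      (2 * (1 - (if i = j then 1 else 0))) =
      2 * κ ^ 2 + 2 * (1 - 2 * κ) * (dd o i * dd o j) -
        (if i = j then 2 * κ ^ 2 + 2 * (1 - 2 * κ) * dd o i else 0) := by
    intro i j
    by_cases hij : i = j
    · subst hij
      simp only [if_true]
      have := dd_sq o i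
      have h5 : dd o i * dd o i = dd o i := by rw [← sq]; exact this
      rw [h5]; ring
    · simp [hij]; ring
  simp only [h4, Finset.sum_add_distrib, Finset.sum_sub_distrib, ← Finset.mul_sum,
    ← Finset.sum_mul, Finset.sum_ite_eq, Finset.mem_univ, if_true, sum_dd, Finset.sum_const,
    Finset.card_univ, nsmul_eq_mul, card_ix]
  ring

theorem prodT_devRic (κ : ℝ) : devRic e (prodT (e o)) κ =
    (2 * m - 1) * ((2 * m - 1) * κ - (2 * m - 2)) ^ 2 + ((2 * m - 1) * κ) ^ 2 := by
  unfold devRic
  have h : ∀ j l, ∑ i, prodT (e o) (e i) (e j) (e i) (e l) =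
      -((2 * m - 2) * dd o j) * (if j = l then 1 else 0) := by
    intro j l
    have h1 : ∀ i, prodT (e o) (e i) (e j) (e i) (e l) =
        -(dd o i * (dd o j * (if j = l then 1 else 0))) +
          (if i = l then (if j = i then dd o i * dd o j else 0) else 0) := by
      intro i
      rw [prodT_comp]
      unfold unitCurv
      by_cases h2 : i = l
      · by_cases h3 : j = i
        · simp [h2, h3]
        · simp [h2, h3]
      · simp [h2]
    simp only [h1, Finset.sum_add_distrib, Finset.sum_neg_distrib, ← Finset.sum_mul,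
      Finset.sum_ite_eq', Finset.mem_univ, if_true, sum_dd]
    by_cases h2 : j = l
    · subst h2
      simp only [if_true]
      have := dd_sq o j
      have h5 : dd o j * dd o j = dd o j := by rw [← sq]; exact this
      rw [h5]; ring
    · simp [h2]
  simp only [h]
  have h6 : ∀ j l, (-((2 * m - 2) * dd o j) * (if j = l then 1 else 0) +
      (2 * m - 1) * κ * (if j = l then 1 else 0)) ^ 2 =
      if j = l then ((2 * m - 1) * κ - (2 * m - 2) * dd o j) ^ 2 else 0 := by
    intro j l
    by_cases h2 : j = l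
    · simp only [h2, if_true]; ring
    · simp [h2]
  simp only [h6, Finset.sum_ite_eq, Finset.mem_univ, if_true]
  have h7 : ∀ j, ((2 * m - 1) * κ - (2 * m - 2) * dd o j) ^ 2 =
      ((2 * m - 1) * κ) ^ 2 + (((2 * m - 1) * κ - (2 * m - 2)) ^ 2 - ((2 * m - 1) * κ) ^ 2) *
        dd o j := by
    intro j
    have := dd_sq o j
    calc _ = ((2 * m - 1) * κ) ^ 2 - 2 * ((2 * m - 1) * κ) * (2 * m - 2) * dd o j +
          (2 * m - 2) ^ 2 * dd o j ^ 2 := by ring
      _ = _ := by rw [this]; ring
  simp only [h7, Finset.sum_add_distrib, ← Finset.mul_sum, sum_dd, Finset.sum_const,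
    Finset.card_univ, nsmul_eq_mul, card_ix]
  ring

/-- **Sharpness.** -/
theorem prodT_dev (hm : 2 ≤ m) : dev e (prodT (e o)) ≤ 5 / 4 * meanK e (prodT (e o)) := by
  have hm1 : (2 : ℝ) ≤ m := by exact_mod_cast hm
  have h0 : (0 : ℝ) < 2 * m := by linarith
  have hκ := prodT_mean e o (by omega)
  refine dev_le (by omega) e _ ?_ ?_ ?_
  · rw [hκ]
    have : 0 ≤ (2 * m - 2 : ℝ) / (2 * m) := div_nonneg (by linarith) h0.le
    positivity
  · rw [prodT_devR, hκ]
    have e1 : (5 / 4 * ((2 * m - 2 : ℝ) / (2 * m)) * (2 * m)) ^ 2 = (5 / 4 * (2 * m - 2)) ^ 2 := by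
      congr 1; field_simp
    rw [e1]
    have e2 : 2 * ((2 * m - 1) * (2 * m - 2) * ((2 * m - 2 : ℝ) / (2 * m) - 1) ^ 2 +
        2 * (2 * m - 1) * ((2 * m - 2) / (2 * m)) ^ 2) =
        4 * (2 * m - 1) * (2 * m - 2) / (2 * m) := by
      field_simp; ring
    rw [e2, div_le_iff₀ h0]
    have e3 : 4 * (2 * m - 1) * (2 * m - 2) ≤ (5 / 4 * (2 * m - 2 : ℝ)) ^ 2 * (2 * m) ↔
        0 ≤ (2 * m - 2 : ℝ) * (25 / 16 * (2 * m - 2) * (2 * m) - 4 * (2 * m - 1)) := by
      constructor <;> intro h <;> nlinarith
    rw [e3]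
    refine mul_nonneg (by linarith) ?_
    nlinarith
  · rw [prodT_devRic, hκ]
    have e1 : (5 / 4 * ((2 * m - 2 : ℝ) / (2 * m)) * (2 * m)) ^ 2 = (5 / 4 * (2 * m - 2)) ^ 2 := by
      congr 1; field_simp
    rw [e1]
    have e2 : (2 * m - 1) * ((2 * m - 1) * ((2 * m - 2 : ℝ) / (2 * m)) - (2 * m - 2)) ^ 2 +
        ((2 * m - 1) * ((2 * m - 2) / (2 * m))) ^ 2 =
        (2 * m - 1) * (2 * m - 2) ^ 2 / (2 * m) := by
      field_simp; ring
    rw [e2, div_le_iff₀ h0]
    have : 0 ≤ (2 * m - 2 : ℝ) ^ 2 := sq_nonneg _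
    nlinarith

end ex

end Pool.Agent.U908.HS
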